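import Pool.Agent.Helper621.EffMain

namespace Pool.Agent.Results.MP_eff69f_co.EveryGroupEmbeds

open Finset

/-- For every `k ≥ 3` and every finite group `G` there is a 2-(v,k,1) design with an
automorphism group containing a copy of `G`. -/
theorem result.{u} (k : ℕ) (hk : 3 ≤ k) (G : Type u) [Group G] [Finite G] :
    ∃ (v : ℕ) (B : Finset (Finset (Fin v))),
      k ≤ v ∧ (∀ b ∈ B, b.card = k) ∧
      (∀ x y : Fin v, x ≠ y → ∃! b, b ∈ B ∧ x ∈ b ∧ y ∈ b) ∧
      ∃ φ : G →* Equiv.Perm (Fin v), Function.Injective φ ∧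
        ∀ g : G, B.image (fun b => b.image (φ g)) = B := by
  classical
  -- a copy of `G` in `Type`
  obtain ⟨n, ⟨e⟩⟩ := Finite.exists_equiv_fin G
  let f : G →* Equiv.Perm (Fin n) :=
    { toFun := fun g => (e.symm.trans (Equiv.mulLeft g)).trans e
      map_one' := by ext x; simp
      map_mul' := fun g h => by ext x; simp }
  have hf : Function.Injective f := by
    intro g h hgh
    have h1 := congrArg (fun σ : Equiv.Perm (Fin n) => σ (e 1)) hgh
    simpa [f] using h1
  obtain ⟨v, B, hv, hcard, hpair, ψ, hψ, hB⟩ :=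
    Pool.Agent.Helper621.main_eff k hk f.range
  refine ⟨v, B, hv, hcard, hpair, ψ.comp f.rangeRestrict, ?_, ?_⟩
  · intro g h hgh
    have h2 := hψ hgh
    apply hf
    exact congrArg Subtype.val h2
  · intro g
    set σ : Equiv.Perm (Fin v) := (ψ.comp f.rangeRestrict) g with hσ
    have hsub : B.image (fun b => b.image σ) ⊆ B := by
      intro c hc
      obtain ⟨b, hb, rfl⟩ := mem_image.1 hc
      have h3 := hB (f.rangeRestrict g) b hb
      rw [map_eq_image] at h3
      exact h3
    apply eq_of_subset_of_card_le hsub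
    rw [card_image_of_injective]
    intro b c hbc
    exact image_injective σ.injective hbc

end Pool.Agent.Results.MP_eff69f_co.EveryGroupEmbeds
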